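import Pool.Agent.Lib.A54.Final
import Pool.Agent.Lib.A54.Small

/-!
# Subsets of full outer measure that omit rational distances

In Mathlib `volume A`, for an arbitrary subset `A` of `EuclideanSpace ℝ (Fin n)`, is its Lebesgue
outer measure. The theorem says that for `n ≤ 2` every set `A`, measurable or not, has a subset of
the same outer measure without two distinct points at rational distance. The case `n = 2` is the
plane (Q1), the case `n = 1` is the line (Q2).
-/

namespace Pool.Agent.Results.MP_a54a32_lc.FullOuterMeasure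

open MeasureTheory Pool.Agent.Lib.MP_a54a32_lc Pool.Agent.Lib.A54

theorem result (n : ℕ) (hn : n ≤ 2) (A : Set (EuclideanSpace ℝ (Fin n))) :
    ∃ B ⊆ A, (∀ x ∈ B, ∀ y ∈ B, x ≠ y → ∀ q : ℚ, dist x y ≠ (q : ℝ)) ∧
      volume B = volume A := by
  rcases Nat.eq_zero_or_pos n with h0 | hpos
  · subst h0
    exact ⟨A, subset_rfl, fun x _ y _ hxy => absurd (Subsingleton.elim x y) hxy, rfl⟩
  have hf : ∃ f : EuclideanSpace ℝ (Fin n) → EuclideanSpace ℝ (Fin 2), Isometry f := by
    obtain h | h : n = 1 ∨ n = 2 := by omega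
    · subst h
      exact exists_isometry_one
    · subst h
      exact ⟨id, isometry_id⟩
  obtain ⟨f, hf⟩ := hf
  have hne : NeZero n := ⟨hpos.ne'⟩
  obtain ⟨c, F, hF, hadj, hc⟩ := exists_rank (V := EuclideanSpace ℝ (Fin n)) RatDist ratDist_symm
    (countable_common_of_isometry f hf)
  obtain ⟨B, hBA, hfree, hB⟩ := free_volume F hF c hc A
  refine ⟨B, hBA, ?_, hB⟩
  intro x hx y hy hxy q hq
  rcases hadj x y hxy ⟨hxy, q, hq⟩ with h | h
  · exact hfree x hx y h hy
  · exact hfree y hy x h hx

end Pool.Agent.Results.MP_a54a32_lc.FullOuterMeasure
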